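import Pool.Agent.H72.CH.Targets

/-!
# Row LVE of the board chl_modules: all levels occur
-/

set_option autoImplicit false

namespace Pool.Agent.H40.CHL

open Pool.Agent.H72.CH

/-- the chain on two points with the level `j` -/
theorem plev_two (m j : ℕ) (hj : j ≤ m) :
    PLev m (fun x y : Fin 2 => if x = y then m else j) where
  le := fun x y => by
    split_ifs
    · exact le_rfl
    · exact hj
  self := fun x => if_pos rfl
  sym := fun x y => by
    by_cases h : x = y
    · rw [h]
    · rw [if_neg h, if_neg (Ne.symm h)]
  ult := fun x y z => by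
    by_cases h : x = z
    · rw [if_pos h]
      refine (min_le_left _ _).trans ?_
      split_ifs
      · exact le_rfl
      · exact hj
    · rw [if_neg h]
      by_cases h1 : x = y
      · have h2 : y ≠ z := fun h3 => h (h1.trans h3)
        rw [if_neg h2]
        exact min_le_right _ _
      · rw [if_neg h1]
        exact min_le_left _ _

theorem pf_LVE : T_LVE := by
  intro V ρ 𝔹 m lv hV hE j hj
  obtain ⟨v⟩ := hV.ne
  obtain ⟨g, hg, -⟩ := hE (Fin 2) (fun x y : Fin 2 => if x = y then m else j) Empty
    (fun a => a.elim) (fun _ => v) (plev_two m j (by omega)) (fun x y => by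
      rw [hV.lev.pl.self]
      exact (plev_two m j (by omega)).le x y) (fun a => a.elim)
  exact ⟨g 0, g 1, hg 0 1⟩

end Pool.Agent.H40.CHL
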